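import Pool.Agent.TH334.NR.Model

/-!
# Bit fixing and classical simulation for quantum algorithms that never re-read a position

A quantum query algorithm with `T` queries (`state`, `acc` in `Pool.Agent.TH334.NR.Model`; this is
the model of the frozen statement S14737) never re-reads (`NeverRereads`) if, just before each query,
the amplitude of a basis state about to query the position `i` does not depend on the bit `x i`.
The order in which the positions are read may depend on the input and on the computational path.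

Let `r` such algorithms be run independently (a position read by one of them may be read again by
the others), and accept with probability `G y` if `y 0, ..., y (r - 1)` are their outcomes (for one
algorithm take `r = 1` and `G y = y 0`).  Then the bit-fixing statement holds with
`2048 r ^ 3 T ^ 9 / Var ^ 2` fixed bits, which move the acceptance probability by `√(Var / 2)`, and
a deterministic classical algorithm (a decision tree `DTree`, with `depth` the largest number of
queries) which makes at most `768 r ^ 3 T ^ 9 / (ε δ) ^ 2` queries approximates the acceptance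
probability within `ε` on all but a fraction `δ` of the oracles.
-/

set_option autoImplicit false

namespace Pool.Agent.TH334.Old.F58d

open Pool.Agent.TH334.NR Pool.Agent.H572R2

theorem result (N T m r : ℕ)
    (U : Fin r → ℕ → Matrix.unitaryGroup (Option (Fin N) × Fin m) ℂ)
    (s₀ : Fin r → Option (Fin N) × Fin m) (Acc : Fin r → Finset (Option (Fin N) × Fin m))
    (hU : ∀ κ, NeverRereads (U κ) (s₀ κ) T)
    (G : (Fin r → Bool) → ℝ) (hG0 : ∀ y, 0 ≤ G y) (hG1 : ∀ y, G y ≤ 1)
    (p : (Fin N → Bool) → ℝ)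
    (hp : ∀ x, p x = expect G (fun κ => acc (U κ) (s₀ κ) (Acc κ) T x))
    (E Var : ℝ) (hE : E = (∑ x : Fin N → Bool, p x) / 2 ^ N)
    (hVar : Var = (∑ x : Fin N → Bool, (p x - E) ^ 2) / 2 ^ N) :
    -- bit fixing
    (0 < Var → ∃ (S : Finset (Fin N)) (a : Fin N → Bool),
      (S.card : ℝ) ≤ 2048 * (r : ℝ) ^ 3 * (T : ℝ) ^ 9 / Var ^ 2 ∧
      Real.sqrt (Var / 2) ≤
        |(∑ x ∈ Finset.univ.filter (fun x : Fin N → Bool => ∀ i ∈ S, x i = a i), p x)
            / ((Finset.univ.filter (fun x : Fin N → Bool => ∀ i ∈ S, x i = a i)).card : ℝ)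
          - E|) ∧
    -- classical simulation
    (∀ ε δ : ℝ, 0 < ε → ε ≤ 1 → 0 < δ → δ ≤ 1 → ∃ D : DTree N,
      (D.depth : ℝ) ≤ 768 * (r : ℝ) ^ 3 * (T : ℝ) ^ 9 / (ε * δ) ^ 2 ∧
      ((Finset.univ.filter (fun x : Fin N → Bool => ε < |p x - D.eval x|)).card : ℝ)
        ≤ δ * 2 ^ N) := by
  have hL : ∀ x y, |p x - p y| ≤ 1 * ∑ κ, |(toAlg (U κ) (s₀ κ)).ap T (Acc κ) x
      - (toAlg (U κ) (s₀ κ)).ap T (Acc κ) y| := by
    intro x y
    rw [hp, hp, expect_eq, expect_eq, one_mul]
    simp_rw [toAlg_ap]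
    exact pp_lip G hG0 hG1 _ _ (fun κ => acc_nonneg _ _ _ _ _) (fun κ => acc_le_one _ _ _ _ _)
      (fun κ => acc_nonneg _ _ _ _ _) (fun κ => acc_le_one _ _ _ _ _)
  have hA : ∀ κ, (toAlg (U κ) (s₀ κ)).NRs T := fun κ => toAlg_NRs _ _ (hU κ)
  have hEE : EE p = E := hE.symm
  refine ⟨fun hpos => ?_, fun ε δ hε hε1 hδ hδ1 => ?_⟩
  · have hp0 : ∀ x, 0 ≤ p x := by
      intro x
      rw [hp, expect_eq]
      exact pp_nonneg G hG0 _ (fun κ => acc_nonneg _ _ _ _ _) (fun κ => acc_le_one _ _ _ _ _)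
    have hp1 : ∀ x, p x ≤ 1 := by
      intro x
      rw [hp, expect_eq]
      exact pp_le_one G hG1 _ (fun κ => acc_nonneg _ _ _ _ _) (fun κ => acc_le_one _ _ _ _ _)
    obtain ⟨S, a, h1, h2⟩ := fam_fix (fun κ => toAlg (U κ) (s₀ κ)) Acc hA p hp0 hp1 1 one_pos hL
      Var (by rw [hEE]; exact hVar) hpos
    refine ⟨S, a, h1.trans (le_of_eq (by ring)), ?_⟩
    rw [hEE, ModelR.Ex_eq] at h2
    rw [← Real.sqrt_sq_eq_abs]
    exact Real.sqrt_le_sqrt h2
  · obtain ⟨D, h1, h2⟩ := fam_sim (fun κ => toAlg (U κ) (s₀ κ)) Acc hA p 1 le_rfl hL ε δ hε hε1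
      hδ hδ1
    refine ⟨D, h1.trans (le_of_eq ?_), h2⟩
    rw [mul_pow ε δ]
    ring

end Pool.Agent.TH334.Old.F58d
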