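import Pool.Agent.TH334.NR.Model

/-!
# The strong inequality for quantum algorithms that never re-read a position

A quantum query algorithm with `T` queries (`state`, `acc` in `Pool.Agent.TH334.NR.Model`) never
re-reads (`NeverRereads`) if, just before each query, the amplitude of a basis state about to query
the position `i` does not depend on the bit `x i`.  The order in which the positions are read may
depend on the input and on the computational path.

For its acceptance probability `p`, `Var p ≤ 64 T ^ 5 max_j ‖D_j p‖₂`.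

More generally let `r` such algorithms be run independently (a position read by one of them may be
read again by the others), with outcomes `y 0, ..., y (r - 1)`, and let `f x` be the expectation of
`G y` on the input `x`, for a real function `G` of oscillation at most `c`.  Then
`Var f ≤ 64 c r ^ 2 T ^ 5 max_j ‖D_j f‖₂`.
-/

set_option autoImplicit false

namespace Pool.Agent.TH334.Old.F992

open Pool.Agent.TH334.NR Pool.Agent.H572R2

/-- The variance over the uniform cube. -/
noncomputable def variance {N : ℕ} (f : (Fin N → Bool) → ℝ) : ℝ :=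
  (∑ x : Fin N → Bool, f x ^ 2) / 2 ^ N - ((∑ x : Fin N → Bool, f x) / 2 ^ N) ^ 2

/-- The largest `L²` norm of a discrete derivative `D_j f (x) = (f (x^{j→1}) - f (x^{j→0})) / 2`. -/
noncomputable def maxDeriv {N : ℕ} (f : (Fin N → Bool) → ℝ) : ℝ :=
  ⨆ j : Fin N, Real.sqrt ((∑ x : Fin N → Bool,
    ((f (Function.update x j true) - f (Function.update x j false)) / 2) ^ 2) / 2 ^ N)

lemma If_deriv {N : ℕ} (f : (Fin N → Bool) → ℝ) (j : Fin N) :
    (∑ x : Fin N → Bool,
      ((f (Function.update x j true) - f (Function.update x j false)) / 2) ^ 2) / 2 ^ N = If j f := by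
  unfold If EE
  congr 1
  refine Finset.sum_congr rfl fun x _ => ?_
  show _ = ((f x - f (Function.update x j (!x j))) / 2) ^ 2
  cases hx : x j
  · have h2 : Function.update x j false = x := by rw [← hx]; exact Function.update_eq_self j x
    rw [h2, Bool.not_false]
    ring
  · have h2 : Function.update x j true = x := by rw [← hx]; exact Function.update_eq_self j x
    rw [h2, Bool.not_true]

lemma general (N T m r : ℕ)
    (U : Fin r → ℕ → Matrix.unitaryGroup (Option (Fin N) × Fin m) ℂ)
    (s₀ : Fin r → Option (Fin N) × Fin m) (Acc : Fin r → Finset (Option (Fin N) × Fin m))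
    (hU : ∀ κ, NeverRereads (U κ) (s₀ κ) T)
    (c : ℝ) (G : (Fin r → Bool) → ℝ) (hG : ∀ y y', G y - G y' ≤ c)
    (f : (Fin N → Bool) → ℝ)
    (hf : ∀ x, f x = expect G (fun κ => acc (U κ) (s₀ κ) (Acc κ) T x)) :
    variance f ≤ 64 * c * r ^ 2 * T ^ 5 * maxDeriv f := by
  have hV : variance f = Cv f f := by
    unfold variance Cv EE
    simp only [sq]
  have hI0 : 0 ≤ maxDeriv f := Real.iSup_nonneg fun j => Real.sqrt_nonneg _
  have hc0 : 0 ≤ c := by
    have := hG (fun _ => true) (fun _ => true)
    linarith
  rw [hV]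
  rcases hc0.eq_or_lt with h0 | hc
  · subst h0
    have h1 : ∀ x y, f x = f y := by
      intro x y
      have h2 : ∀ z, f z = G fun _ => true := by
        intro z
        have h3 : ∀ y, G y = G fun _ => true := by
          intro y
          have := hG y fun _ => true
          have := hG (fun _ => true) y
          linarith
        rw [hf, expect_eq]
        unfold pp
        simp_rw [h3]
        rw [← Finset.mul_sum, pp_one, mul_one]
      rw [h2, h2]
    have h2 : Cv f f = 0 := by
      rw [Cv_pair]
      have : EE (fun x => EE (fun y => (f x - f y) ^ 2)) = 0 := by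
        rw [← EE_const (N := N) 0]
        apply EE_congr; intro x
        rw [← EE_const (N := N) 0]
        apply EE_congr; intro y
        rw [h1 x y]; simp
      rw [this]; simp
    rw [h2]; simp
  · have hdeg : PD (2 * T * r) (fun x => ((f x : ℝ) : ℂ)) := by
      refine (pp_PD G (2 * T) (fun κ x => acc (U κ) (s₀ κ) (Acc κ) T x) fun κ => ?_).congr
        fun x => ?_
      · refine ((toAlg (U κ) (s₀ κ)).PD_ap T (Acc κ)).congr fun x => ?_
        rw [toAlg_ap]
      · rw [hf, expect_eq]
    have hL : ∀ x y, |f x - f y| ≤ c * ∑ κ, |(toAlg (U κ) (s₀ κ)).ap T (Acc κ) x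
        - (toAlg (U κ) (s₀ κ)).ap T (Acc κ) y| := by
      intro x y
      rw [hf, hf, expect_eq, expect_eq]
      simp_rw [toAlg_ap]
      exact pp_lip_osc G c hc hG _ _ (fun κ => acc_nonneg _ _ _ _ _) (fun κ => acc_le_one _ _ _ _ _)
        (fun κ => acc_nonneg _ _ _ _ _) (fun κ => acc_le_one _ _ _ _ _)
    have h := fam_lin (fun κ => toAlg (U κ) (s₀ κ)) Acc (fun κ => toAlg_NRs _ _ (hU κ)) f
      (2 * T * r) hdeg c hc hL (maxDeriv f) hI0 (fun l => by
        rw [← If_deriv]
        exact le_ciSup (f := fun j : Fin N => Real.sqrt ((∑ x : Fin N → Bool,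
          ((f (Function.update x j true) - f (Function.update x j false)) / 2) ^ 2) / 2 ^ N))
          (Set.finite_range _).bddAbove l)
    have h2 : 2048 * ((2 * T * r : ℕ) : ℝ) * c ^ 2 * (r : ℝ) ^ 3 * (T : ℝ) ^ 9 * maxDeriv f ^ 2
        = (64 * c * r ^ 2 * T ^ 5 * maxDeriv f) ^ 2 := by
      push_cast; ring
    rw [h2] at h
    exact (pow_le_pow_iff_left₀ (Cv_self_nonneg f) (by positivity) (by norm_num)).1 h

theorem result :
    -- one algorithm which never re-reads
    (∀ (N T m : ℕ) (U : ℕ → Matrix.unitaryGroup (Option (Fin N) × Fin m) ℂ)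
      (s₀ : Option (Fin N) × Fin m) (Acc : Finset (Option (Fin N) × Fin m)),
      NeverRereads U s₀ T →
      ∀ p : (Fin N → Bool) → ℝ, (∀ x, p x = acc U s₀ Acc T x) →
        variance p ≤ 64 * T ^ 5 * maxDeriv p) ∧
    -- post-processing of the outcomes of `r` algorithms
    (∀ (N T m r : ℕ) (U : Fin r → ℕ → Matrix.unitaryGroup (Option (Fin N) × Fin m) ℂ)
      (s₀ : Fin r → Option (Fin N) × Fin m) (Acc : Fin r → Finset (Option (Fin N) × Fin m)),
      (∀ κ, NeverRereads (U κ) (s₀ κ) T) →
      ∀ (c : ℝ) (G : (Fin r → Bool) → ℝ), (∀ y y', G y - G y' ≤ c) →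
      ∀ f : (Fin N → Bool) → ℝ,
        (∀ x, f x = expect G (fun κ => acc (U κ) (s₀ κ) (Acc κ) T x)) →
        variance f ≤ 64 * c * r ^ 2 * T ^ 5 * maxDeriv f) := by
  refine ⟨?_, fun N T m r U s₀ Acc hU c G hG f hf => general N T m r U s₀ Acc hU c G hG f hf⟩
  intro N T m U s₀ Acc hU p hp
  have h := general N T m 1 (fun _ => U) (fun _ => s₀) (fun _ => Acc) (fun _ => hU) 1
    (fun y => if y 0 then 1 else 0) (fun y y' => by split_ifs <;> norm_num) p
    (fun x => by
      rw [hp]
      unfold expect
      have h1 : ∀ u : ℝ, ∑ y : Fin 1 → Bool, (if y 0 = true then (1 : ℝ) else 0)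
          * ∏ κ : Fin 1, (if y κ then u else 1 - u) = u := by
        intro u
        rw [← (Equiv.funUnique (Fin 1) Bool).symm.sum_comp]
        simp
      exact (h1 _).symm)
  simpa using h

end Pool.Agent.TH334.Old.F992
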